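import Pool.Agent.H.MP_aa1cdf_co.A

namespace Pool.Agent.Results.MP_aa1cdf_co.Counter

open Matrix

/-- Nonzero integer vectors at which `Q` attains its minimum over nonzero integer vectors. -/
def Min {g : ℕ} (Q : QuadraticForm ℝ (Fin g → ℝ)) : Set (Fin g → ℤ) :=
  {v | v ≠ 0 ∧ ∀ w : Fin g → ℤ, w ≠ 0 → Q (fun i => (v i : ℝ)) ≤ Q (fun i => (w i : ℝ))}

/-- The lattice of integral symmetric matrices. -/
def Sym (g : ℕ) : Submodule ℤ (Matrix (Fin g) (Fin g) ℤ) where
  carrier := {M | M.IsSymm}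
  zero_mem' := isSymm_zero
  add_mem' := fun ha hb => ha.add hb
  smul_mem' := fun c _ h => h.smul c

open Pool.Agent.H.MP_aa1cdf_co

theorem result : ∃ (g : ℕ) (v : Fin g → Fin g → ℤ) (Q : QuadraticForm ℝ (Fin g → ℝ)),
    LinearIndependent ℤ v ∧ Q.PosDef ∧ Min Q = {x | ∃ i, x = v i ∨ x = -v i} ∧
    ¬ ∃ (ι : Type) (b : Module.Basis ι ℤ (Sym g)), ∀ i, ∃ k, (b k).1 = vecMulVec (v i) (v i) := by
  classical
  obtain ⟨Gr, hGr⟩ : ∃ Gr : Matrix (Fin 22) (Fin 22) ℝ, Gr = G.map (Int.castRingHom ℝ) := ⟨_, rfl⟩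
  obtain ⟨Q, hQ⟩ : ∃ Q : QuadraticForm ℝ (Fin 22 → ℝ), ∀ x, Q x = ∑ j, (x ᵥ* Gr) j ^ 2 :=
    ⟨(QuadraticMap.weightedSumSquares ℝ (fun _ : Fin 22 => (1 : ℝ))).comp (vecMulLinear Gr),
      fun x => by simp [QuadraticMap.weightedSumSquares_apply, sq]⟩
  have hz : ∀ x : Fin 22 → ℤ, Q (fun i => (x i : ℝ)) = ((∑ j, (x ᵥ* G) j ^ 2 : ℤ) : ℝ) := by
    intro x
    rw [hQ, hGr]
    simp [vecMul, dotProduct]
  have hli : LinearIndependent ℤ (fun i => V i) := by
    rw [Fintype.linearIndependent_iff]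
    intro c hc i
    have h1 : c ᵥ* V = 0 := by
      rw [← hc]
      funext j
      simp [vecMul, dotProduct, Finset.sum_apply]
    have h2 := congrArg (· ᵥ* G) h1
    simp only [vecMul_vecMul, VG', vecMul_smul, vecMul_one, zero_vecMul] at h2
    have := congrFun h2 i
    simp only [Pi.smul_apply, nsmul_eq_mul, Pi.zero_apply] at this
    omega
  have hne : ∀ i, V i ≠ 0 := fun i => hli.ne_zero i
  have hlo : ∀ w : Fin 22 → ℤ, w ≠ 0 → 4 ≤ ∑ j, (w ᵥ* G) j ^ 2 := by
    intro w hw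
    rcases short w hw with h | ⟨i, rfl | rfl⟩
    · exact h.le
    · exact (normV i).ge
    · simpa [neg_vecMul] using (normV i).ge
  refine ⟨22, fun i => V i, Q, hli, fun x hx => ?_, ?_, ?_⟩
  · rw [hQ]
    refine lt_of_le_of_ne (Finset.sum_nonneg fun j _ => sq_nonneg _) fun h => hx ?_
    have h1 : x ᵥ* Gr = 0 := funext fun j => pow_eq_zero_iff two_ne_zero |>.1
      ((Finset.sum_eq_zero_iff_of_nonneg fun j _ => sq_nonneg _).1 h.symm j (Finset.mem_univ j))
    have h2 := congrArg (· ᵥ* V.map (Int.castRingHom ℝ)) h1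
    have h3 : Gr * V.map (Int.castRingHom ℝ) = (2 : ℝ) • 1 := by
      rw [hGr, ← Matrix.map_mul]
      ext i k
      rw [map_apply, mul_apply, GV]
      by_cases h : i = k <;> simp [h]
    simp only [vecMul_vecMul, h3, zero_vecMul, vecMul_smul, vecMul_one] at h2
    simpa using h2
  · ext x
    simp only [Min, Set.mem_ofPred_eq, hz, Int.cast_le]
    constructor
    · rintro ⟨h1, h2⟩
      refine (short x h1).resolve_left (not_lt.2 ?_)
      exact (h2 _ (hne 0)).trans (normV 0).le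
    · rintro ⟨i, rfl | rfl⟩
      · exact ⟨hne i, fun w hw => (normV i).le.trans (hlo w hw)⟩
      · refine ⟨neg_ne_zero.2 (hne i), fun w hw => ?_⟩
        simpa [neg_vecMul, normV i] using hlo w hw
  · rintro ⟨ι, b, hb⟩
    choose f hf using hb
    have hinj : ∀ i, f i = f 0 → i = 0 := by
      intro i hi
      have h1 : vecMulVec (V i) (V i) = vecMulVec (V 0) (V 0) := by rw [← hf, ← hf, hi]
      have h2 : ∀ i : Fin 22, V i 0 * V i 0 = V 0 0 * V 0 0 → i = 0 := by decide +kernel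
      exact h2 i (congrFun (congrFun h1 0) 0)
    have hM : (Matrix.of fun j k => (∑ i, V i j * V i k) / 2) ∈ Sym 22 := by
      ext j k
      simp only [transpose_apply, of_apply, mul_comm]
    have h2 : (2 : ℤ) • (⟨_, hM⟩ : Sym 22) = ∑ i, b (f i) := by
      ext j k
      have := VV j k
      simp only [SetLike.val_smul, Matrix.smul_apply, of_apply, smul_eq_mul,
        AddSubmonoidClass.coe_finsetSum, hf, Matrix.sum_apply, vecMulVec_apply]
      omega
    have h3 := congrArg (fun M => b.repr M (f 0)) h2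
    simp only [map_smul, map_sum, Module.Basis.repr_self, Finsupp.smul_apply, smul_eq_mul,
      Finsupp.finsetSum_apply] at h3
    rw [Finset.sum_eq_single 0 (fun i _ hi => Finsupp.single_eq_of_ne' fun h => hi (hinj i h))
      (by simp), Finsupp.single_eq_same] at h3
    omega

end Pool.Agent.Results.MP_aa1cdf_co.Counter
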